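import Pool.Agent.Helper76_LAG.Stmt

/-!
# LAG, module TUT: a matching which covers almost all vertices of maximum degree
-/

set_option autoImplicit false

namespace Pool.Agent.LAG

namespace Tut

open SimpleGraph Classical

variable {V : Type}

/-- Two copies of `G` and a clique on `W' × Bool`. -/
def Gam (G : SimpleGraph V) (W' : Set V) : SimpleGraph (V × Bool) where
  Adj a b := (a.2 = b.2 ∧ G.Adj a.1 b.1) ∨ (a ≠ b ∧ a.1 ∈ W' ∧ b.1 ∈ W')
  symm := ⟨fun _ _ h => h.elim (fun h => Or.inl ⟨h.1.symm, h.2.symm⟩)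
    (fun h => Or.inr ⟨h.1.symm, h.2.2, h.2.1⟩)⟩
  loopless := ⟨fun _ h => h.elim (fun h => h.2.ne rfl) (fun h => h.1 rfl)⟩

/-- The graph with the vertices of `S` deleted. -/
abbrev Del (G : SimpleGraph V) (W' : Set V) (S : Set (V × Bool)) :=
  ((⊤ : (Gam G W').Subgraph).deleteVerts S).coe

/-- The vertex type of the graph with the vertices of `S` deleted. -/
abbrev DV (G : SimpleGraph V) (W' : Set V) (S : Set (V × Bool)) : Type :=
  ((⊤ : (Gam G W').Subgraph).deleteVerts S).verts

lemma mem_dv {G : SimpleGraph V} {W' : Set V} {S : Set (V × Bool)} {a : V × Bool} (h : a ∉ S) :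
    a ∈ ((⊤ : (Gam G W').Subgraph).deleteVerts S).verts := by
  simp [h]

lemma dv_not {G : SimpleGraph V} {W' : Set V} {S : Set (V × Bool)} (a : DV G W' S) :
    a.1 ∉ S := by
  exact a.2.2

lemma del_adj {G : SimpleGraph V} {W' : Set V} {S : Set (V × Bool)} (a b : DV G W' S) :
    (Del G W' S).Adj a b ↔ (Gam G W').Adj a.1 b.1 := by
  simp [Del]

/-- The edges from a component to `S`. -/
noncomputable def Ed [Fintype V] (G : SimpleGraph V) (W' : Set V) (S : Set (V × Bool))
    (κ : (Del G W' S).ConnectedComponent) : Finset ((V × Bool) × (V × Bool)) :=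
  Finset.univ.filter fun e => (∃ a : DV G W' S, a.1 = e.1 ∧ a ∈ κ.supp) ∧ e.2 ∈ S ∧
    e.1.2 = e.2.2 ∧ G.Adj e.1.1 e.2.1

lemma ed_card (hB : BndStmt) [Fintype V] (G : SimpleGraph V) (Δ R : ℕ) (hΔ : 2 ≤ Δ)
    (hBig : Big G (4 * R + 6)) (W' : Set V) (hdeg : ∀ v, v ∉ W' → (G.neighborSet v).ncard = Δ)
    (hW : ∀ v, ∃ w ∈ W', near G R v w) (S : Set (V × Bool))
    (κ : (Del G W' S).ConnectedComponent) (hκ : ∀ a ∈ κ.supp, a.1.1 ∉ W') :
    Δ ≤ (Ed G W' S κ).card := by
  obtain ⟨a0, ha0⟩ := κ.nonempty_supp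
  have hside : ∀ a b : DV G W' S, (Del G W' S).Walk a b → a ∈ κ.supp → a.1.2 = b.1.2 := by
    intro a b p
    induction p with
    | nil => intro _; rfl
    | cons h p ih =>
      intro ha
      have hc := (ConnectedComponent.mem_supp_congr_adj κ h).1 ha
      rw [← ih hc]
      rw [del_adj] at h
      rcases h with h | h
      · exact h.1
      · exact absurd h.2.1 (hκ _ ha)
  have hside' : ∀ a ∈ κ.supp, a.1.2 = a0.1.2 := by
    intro a ha
    have hr : (Del G W' S).Reachable a a0 := by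
      apply ConnectedComponent.exact
      rw [ConnectedComponent.mem_supp_iff] at ha ha0
      rw [ha, ha0]
    obtain ⟨p⟩ := hr
    exact hside a a0 p ha
  set b := a0.1.2 with hb
  let C : Set V := {v | ∃ a : DV G W' S, a.1 = (v, b) ∧ a ∈ κ.supp}
  let Sb : Set V := {v | (v, b) ∈ S}
  have hCW : ∀ v ∈ C, v ∉ W' := by
    rintro v ⟨a, ha, hak⟩
    have := hκ a hak
    rw [ha] at this
    exact this
  have key := hB V G Δ R hΔ hBig C Sb ?_ ?_ ?_ ?_ ?_
  · refine key.trans ?_
    rw [← Set.ncard_coe_finset]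
    refine Set.ncard_le_ncard_of_injOn (fun e : V × V => ((e.1, b), (e.2, b))) ?_ ?_
      (Finset.finite_toSet _)
    · rintro ⟨u, w⟩ ⟨⟨a, ha, hak⟩, h2, h3⟩
      simp only [Ed, Finset.coe_filter, Finset.mem_univ, true_and, Set.mem_ofPred_eq]
      exact ⟨⟨a, ha, hak⟩, h2, h3⟩
    · rintro ⟨u, w⟩ _ ⟨u', w'⟩ _ h
      simp only [Prod.mk.injEq, and_true] at h
      rw [h.1, h.2]
  · exact ⟨a0.1.1, a0, rfl, ha0⟩
  · intro v hv
    exact hdeg v (hCW v hv)
  · rintro v ⟨a, ha, hak⟩ u huv
    by_cases hS : (u, b) ∈ S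
    · exact Or.inr hS
    · left
      have hadj : (Del G W' S).Adj a ⟨(u, b), mem_dv hS⟩ := by
        rw [del_adj, ha]
        exact Or.inl ⟨rfl, huv⟩
      exact ⟨⟨(u, b), mem_dv hS⟩, rfl, (ConnectedComponent.mem_supp_congr_adj κ hadj).1 hak⟩
  · rw [Set.disjoint_left]
    rintro v ⟨a, ha, hak⟩ hv
    have := dv_not a
    rw [ha] at this
    exact this hv
  · intro v
    obtain ⟨w, hw, hn⟩ := hW v
    exact ⟨w, fun h => hCW w h hw, hn⟩

lemma tot_card [Fintype V] (G : SimpleGraph V) (Δ : ℕ)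
    (hdeg : ∀ v, (G.neighborSet v).ncard ≤ Δ) (S : Set (V × Bool)) :
    (Finset.univ.filter fun e : (V × Bool) × (V × Bool) => e.2 ∈ S ∧ e.1.2 = e.2.2 ∧
      G.Adj e.1.1 e.2.1).card ≤ S.ncard * Δ := by
  have h1 : (Finset.univ.filter fun e : (V × Bool) × (V × Bool) => e.2 ∈ S ∧ e.1.2 = e.2.2 ∧
      G.Adj e.1.1 e.2.1) ⊆ S.toFinset.biUnion fun y =>
        Finset.univ.filter fun e : (V × Bool) × (V × Bool) => e.2 = y ∧ e.1.2 = y.2 ∧
          G.Adj e.1.1 y.1 := by
    intro e he
    simp only [Finset.mem_filter, Finset.mem_univ, true_and] at he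
    simp only [Finset.mem_biUnion, Set.mem_toFinset, Finset.mem_filter, Finset.mem_univ, true_and]
    exact ⟨e.2, he.1, rfl, he.2.1, he.2.2⟩
  refine (Finset.card_le_card h1).trans ?_
  rw [Set.ncard_eq_toFinset_card' S]
  refine Finset.card_biUnion_le_card_mul _ _ _ ?_
  intro y _
  refine le_trans ?_ (hdeg y.1)
  rw [← Set.ncard_coe_finset]
  refine Set.ncard_le_ncard_of_injOn (fun e => e.1.1) ?_ ?_ (Set.toFinite _)
  · intro e he
    simp only [Finset.coe_filter, Finset.mem_univ, true_and, Set.mem_ofPred_eq] at he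
    exact he.2.2.symm
  · rintro ⟨⟨u, i⟩, w⟩ he ⟨⟨u', i'⟩, w'⟩ he' h
    simp only [Finset.coe_filter, Finset.mem_univ, true_and, Set.mem_ofPred_eq] at he he'
    obtain ⟨rfl, h2, -⟩ := he
    obtain ⟨rfl, h2', -⟩ := he'
    simp only at h h2 h2'
    rw [h, h2, h2']

lemma no_violator (hB : BndStmt) [Fintype V] (G : SimpleGraph V) (Δ R : ℕ) (hΔ : 2 ≤ Δ)
    (hBig : Big G (4 * R + 6)) (W' : Set V) (hdeg : ∀ v, v ∉ W' → (G.neighborSet v).ncard = Δ)
    (hdeg2 : ∀ v, (G.neighborSet v).ncard ≤ Δ)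
    (hW : ∀ v, ∃ w ∈ W', near G R v w) (S : Set (V × Bool)) :
    ¬ (Gam G W').IsTutteViolator S := by
  intro hviol
  unfold IsTutteViolator at hviol
  have : Fintype (DV G W' S) := Fintype.ofFinite _
  have : Fintype (Del G W' S).ConnectedComponent := Fintype.ofFinite _
  let K0 : Finset (Del G W' S).ConnectedComponent :=
    Finset.univ.filter fun κ => ∀ a ∈ κ.supp, a.1.1 ∉ W'
  have h1 : K0.card * Δ ≤ S.ncard * Δ := by
    calc K0.card * Δ = ∑ _κ ∈ K0, Δ := by rw [Finset.sum_const, smul_eq_mul]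
      _ ≤ ∑ κ ∈ K0, (Ed G W' S κ).card := by
          refine Finset.sum_le_sum fun κ hκ => ?_
          refine ed_card hB G Δ R hΔ hBig W' hdeg hW S κ ?_
          exact (Finset.mem_filter.1 hκ).2
      _ = (K0.biUnion fun κ => Ed G W' S κ).card := by
          rw [Finset.card_biUnion]
          intro κ _ κ' _ hne
          change Disjoint (Ed G W' S κ) (Ed G W' S κ')
          rw [Finset.disjoint_left]
          intro e he he'
          simp only [Ed, Finset.mem_filter, Finset.mem_univ, true_and] at he he'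
          obtain ⟨⟨a, ha, hak⟩, -⟩ := he
          obtain ⟨⟨a', ha', hak'⟩, -⟩ := he'
          have hh : a = a' := Subtype.ext (ha.trans ha'.symm)
          rw [← hh] at hak'
          rw [ConnectedComponent.mem_supp_iff] at hak hak'
          exact hne (hak.symm.trans hak')
      _ ≤ (Finset.univ.filter fun e : (V × Bool) × (V × Bool) => e.2 ∈ S ∧ e.1.2 = e.2.2 ∧
            G.Adj e.1.1 e.2.1).card := by
          apply Finset.card_le_card
          intro e he
          simp only [Finset.mem_biUnion, Ed, Finset.mem_filter, Finset.mem_univ, true_and] at he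
          obtain ⟨κ, -, -, h⟩ := he
          simp only [Finset.mem_filter, Finset.mem_univ, true_and]
          exact h
      _ ≤ S.ncard * Δ := tot_card G Δ hdeg2 S
  have h2 : K0.card ≤ S.ncard := Nat.le_of_mul_le_mul_right h1 (by omega)
  have h3 : ((Del G W' S).oddComponents \ (K0 : Set _)).ncard ≤ 1 := by
    rw [Set.ncard_le_one (Set.toFinite _)]
    rintro κ ⟨-, hκ⟩ κ' ⟨-, hκ'⟩
    simp only [K0, Finset.coe_filter, Finset.mem_univ, true_and, Set.mem_ofPred_eq, not_forall,
      not_not] at hκ hκ'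
    obtain ⟨a, hak, haW⟩ := hκ
    obtain ⟨a', hak', haW'⟩ := hκ'
    by_cases hne : a = a'
    · rw [← hne] at hak'
      rw [ConnectedComponent.mem_supp_iff] at hak hak'
      exact hak.symm.trans hak'
    · have hadj : (Del G W' S).Adj a a' := by
        rw [del_adj]
        exact Or.inr ⟨fun h => hne (Subtype.ext h), haW, haW'⟩
      have h4 := (ConnectedComponent.mem_supp_congr_adj κ hadj).1 hak
      rw [ConnectedComponent.mem_supp_iff] at h4 hak'
      exact h4.symm.trans hak'
  have h4 : (Del G W' S).oddComponents.ncard ≤ K0.card + 1 := by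
    calc (Del G W' S).oddComponents.ncard
        ≤ ((K0 : Set (Del G W' S).ConnectedComponent) ∪
            ((Del G W' S).oddComponents \ (K0 : Set _))).ncard := by
          apply Set.ncard_le_ncard _ (Set.toFinite _)
          intro κ hκ
          by_cases h : κ ∈ (K0 : Set (Del G W' S).ConnectedComponent)
          · exact Or.inl h
          · exact Or.inr ⟨hκ, h⟩
      _ ≤ (K0 : Set (Del G W' S).ConnectedComponent).ncard + _ := Set.ncard_union_le _ _
      _ ≤ K0.card + 1 := by
          rw [Set.ncard_coe_finset]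
          exact Nat.add_le_add_left h3 _
  have h5 : (Del G W' S).oddComponents.ncard = S.ncard + 1 := by
    have hv : S.ncard < (Del G W' S).oddComponents.ncard := hviol
    omega
  have h6 := odd_ncard_oddComponents (Del G W' S)
  have h7 : Nat.card (DV G W' S) = 2 * Fintype.card V - S.ncard := by
    have : Nat.card (DV G W' S) = (Sᶜ : Set (V × Bool)).ncard := by
      rw [← Nat.card_coe_set_eq]
      apply Nat.card_congr
      refine Equiv.setCongr ?_
      ext a
      simp
    rw [this, Set.ncard_compl, Nat.card_eq_fintype_card, Fintype.card_prod, Fintype.card_bool]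
    ring_nf
  have h8 : S.ncard ≤ 2 * Fintype.card V := by
    have := Set.ncard_le_card (α := V × Bool) S
    rw [Nat.card_eq_fintype_card, Fintype.card_prod, Fintype.card_bool] at this
    omega
  rw [h5] at h6
  change Odd (S.ncard + 1) ↔ Odd (Nat.card (DV G W' S)) at h6
  rw [h7, Nat.odd_iff, Nat.odd_iff] at h6
  omega

end Tut

open Tut SimpleGraph in
/-- TUT -/
theorem tut (hB : BndStmt) : TutStmt := by
  intro V _ G Δ R hΔ hBig hdeg W hW
  classical
  let W' : Set V := W ∪ {v | (G.neighborSet v).ncard < Δ}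
  have hno : ∀ S : Set (V × Bool), ¬ (Gam G W').IsTutteViolator S := by
    intro S
    refine no_violator hB G Δ R hΔ hBig W' ?_ hdeg ?_ S
    · intro v hv
      have h1 := hdeg v
      have h2 : ¬ (G.neighborSet v).ncard < Δ := fun h => hv (Or.inr h)
      omega
    · intro v
      obtain ⟨w, hw, hn⟩ := hW v
      exact ⟨w, Or.inl hw, hn⟩
  obtain ⟨M, hM⟩ := (SimpleGraph.tutte).2 hno
  have hM' := Subgraph.isPerfectMatching_iff.1 hM
  let N : SimpleGraph V :=
    { Adj := fun u v => G.Adj u v ∧ M.Adj (u, false) (v, false)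
      symm := ⟨fun _ _ h => ⟨h.1.symm, h.2.symm⟩⟩
      loopless := ⟨fun _ h => h.1.ne rfl⟩ }
  have hle : ∀ v, (N.neighborSet v).ncard ≤ 1 := by
    intro v
    rw [Set.ncard_le_one (Set.toFinite _)]
    intro a ha b hb
    have ha' : M.Adj (v, false) (a, false) := ha.2
    have hb' : M.Adj (v, false) (b, false) := hb.2
    have := (hM' (v, false)).unique ha' hb'
    exact congrArg Prod.fst this
  refine ⟨N, fun u v h => h.1, hle, ?_⟩
  intro v hv hvW
  refine le_antisymm (hle v) ?_
  obtain ⟨w, hw, -⟩ := hM' (v, false)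
  have hg := M.adj_sub hw
  have hvW' : v ∉ W' := by
    rintro (h | h)
    · exact hvW h
    · exact absurd hv (Nat.ne_of_lt h)
  rcases hg with hg | hg
  · have hw2 : w = (w.1, false) := Prod.ext rfl hg.1.symm
    have : w.1 ∈ N.neighborSet v := ⟨hg.2, by rw [← hw2]; exact hw⟩
    exact (Set.ncard_pos (Set.toFinite _)).2 ⟨_, this⟩
  · exact absurd hg.2.1 hvW'

end Pool.Agent.LAG
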