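import Pool.Agent.Helper76_LAG.Stmt

/-!
# LAG, module DEDA: a short monochromatic cycle gives a configuration
-/

set_option autoImplicit false

namespace Pool.Agent.LAG

namespace DedA

open SimpleGraph

variable {V : Type} {L T : ℕ} {E : Env V} {ω : V → St L}

lemma alv_symm {u v : V} (h : Alv E ω u v) : Alv E ω v u := ⟨h.1.symm, h.2.2, h.2.1⟩

lemma ptn_symm {v u w : V} (h : Ptn E ω v u w) : Ptn E ω v w u := by
  unfold Ptn at *
  rw [← h, kx_kx]

lemma isT_rev {z : ℕ → V} {n : ℕ} (h : IsT E ω z n) : IsT E ω (fun j => z (n - j)) n := by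
  refine ⟨fun t ht => ?_, fun t h0 ht => ?_⟩
  · have := h.1 (n - (t + 1)) (by omega)
    have e : n - (t + 1) + 1 = n - t := by omega
    rw [e] at this
    exact alv_symm this
  · have := h.2 (n - t) (by omega) (by omega)
    have e1 : n - t - 1 = n - (t + 1) := by omega
    have e2 : n - t + 1 = n - (t - 1) := by omega
    rw [e1, e2] at this
    exact ptn_symm this

lemma isT_le {z : ℕ → V} {n m : ℕ} (h : IsT E ω z n) (hm : m ≤ n) : IsT E ω z m :=
  ⟨fun t ht => h.1 t (by omega), fun t h0 ht => h.2 t h0 (by omega)⟩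

lemma onSeg_left {e : V × V} (h : Alv E ω e.1 e.2) : OnSeg E ω e e.1 := by
  refine ⟨fun i => if i = 0 then e.1 else e.2, 1, 0, 0, ⟨?_, ?_⟩, by omega, by omega, by simp, ?_⟩
  · intro t ht
    have : t = 0 := by omega
    subst this
    simpa using h
  · intro t h0 ht
    omega
  · left
    simp

lemma onSeg_right {e : V × V} (h : Alv E ω e.1 e.2) : OnSeg E ω e e.2 := by
  refine ⟨fun i => if i = 0 then e.1 else e.2, 1, 0, 1, ⟨?_, ?_⟩, by omega, by omega, by simp, ?_⟩
  · intro t ht
    have : t = 0 := by omega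
    subst this
    simpa using h
  · intro t h0 ht
    omega
  · left
    simp

theorem core (hA : SegaStmt) (hB : SegbStmt) (ℓ : ℕ) (hT : Tame E ω T) (c : Bool) (X : ℕ → V)
    (m : ℕ) (hm : 3 ≤ m) (hX : ∀ t, (CG E ω T c).Adj (X t) (X (t + 1)))
    (hinj : ∀ s t, s < t → t < s + m → X s ≠ X t) (hper : ∀ t, X (t + m) = X t) (hml : m ≤ ℓ) :
    ∃ r a b p w v, Cfg E ω T ℓ c r a b p w v := by
  classical
  obtain ⟨-, -, A3, -, A5, -⟩ := hA V L T E ω hT
  obtain ⟨B1, B2, B3⟩ := hB V L T E ω hT
  have hal : ∀ t, Alv E ω (X t) (X (t + 1)) := fun t => (hX t).1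
  have hcol : ∀ t, col E ω T (X t, X (t + 1)) = c := fun t => (hX t).2.1
  -- consecutive trails are different
  have hcons : ∀ t, skey E ω T (X t, X (t + 1)) ≠ skey E ω T (X (t + 1), X (t + 1 + 1)) := by
    intro t h
    have hne : X t ≠ X (t + 1 + 1) := hinj t (t + 1 + 1) (by omega) (by omega)
    have hp := B1 _ _ _ (hal t) (hal (t + 1)) hne h
    have := A5 _ _ _ (hal t) (hal (t + 1)) hp
    rw [hcol t, hcol (t + 1)] at this
    exact this rfl
  -- common vertices
  let Q : ℕ → ℕ → V → Prop := fun s r y =>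
    OnSeg E ω (X s, X (s + 1)) y ∧ OnSeg E ω (X (s + r), X (s + r + 1)) y ∧ (r = 1 → y ≠ X (s + 1))
  have hon1 : ∀ t, OnSeg E ω (X t, X (t + 1)) (X t) := fun t => onSeg_left (hal t)
  have hon2 : ∀ t, OnSeg E ω (X t, X (t + 1)) (X (t + 1)) := fun t => onSeg_right (hal t)
  have hex : ∃ r, 1 ≤ r ∧ r ≤ m - 1 ∧ ∃ s y, Q s r y := by
    refine ⟨m - 1, by omega, le_rfl, 1, X 1, hon1 1, ?_, fun h => by omega⟩
    have e : 1 + (m - 1) = 0 + m := by omega
    rw [e, hper 0]
    have e2 : 0 + m + 1 = 1 + m := by omega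
    rw [e2, hper 1]
    exact hon2 0
  obtain ⟨hr1, hr2, s, y, hs1, hs2, hs3⟩ := Nat.find_spec hex
  have hmin : ∀ r', 1 ≤ r' → r' < Nat.find hex → ∀ s y, ¬ Q s r' y := by
    intro r' h1 h2 s y hq
    exact Nat.find_min hex h2 ⟨h1, by omega, s, y, hq⟩
  generalize Nat.find hex = r at *
  -- keys
  have hkeys : ∀ i j, i < j → j ≤ r →
      skey E ω T (X (s + i), X (s + i + 1)) ≠ skey E ω T (X (s + j), X (s + j + 1)) := by
    intro i j hij hjr h
    by_cases hj : j = i + 1
    · subst hj
      exact hcons (s + i) h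
    · refine hmin (j - i - 1) (by omega) (by omega) (s + i + 1) (X (s + i + 1)) ⟨hon1 _, ?_, ?_⟩
      · have e : s + i + 1 + (j - i - 1) = s + j := by omega
        rw [e]
        exact B3 _ _ _ (hal _) (hal _) h (hon2 _)
      · intro _
        exact hinj _ _ (by omega) (by omega)
  -- the trail w
  have hyr : y ≠ X (s + r) := by
    by_cases h1 : r = 1
    · rw [h1] at hs3 ⊢
      exact hs3 rfl
    · intro hy
      refine hmin (r - 1) (by omega) (by omega) s y ⟨hs1, ?_, ?_⟩
      · rw [hy]
        have e : s + r = s + (r - 1) + 1 := by omega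
        rw [e]
        exact hon2 _
      · intro _
        rw [hy]
        exact (hinj _ _ (by omega) (by omega)).symm
  obtain ⟨w, n, hn, hwT, hw0, hwn, hwk⟩ :=
    B2 (X (s + r), X (s + r + 1)) y (hal _) hs2 (X (s + r)) (Or.inl rfl) hyr
  have hwon : ∀ i, i ≤ n → OnSeg E ω (X (s + r), X (s + r + 1)) (w i) := by
    intro i hi
    refine B3 (w 0, w 1) _ _ (hwT.1 0 (by omega)) (hal _) hwk ?_
    exact ⟨w, n, 0, i, hwT, by omega, hi, rfl, Or.inl rfl⟩
  have hexa : ∃ i, 1 ≤ i ∧ i ≤ n ∧ OnSeg E ω (X s, X (s + 1)) (w i) :=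
    ⟨n, hn, le_rfl, by rw [hwn]; exact hs1⟩
  obtain ⟨ha1, ha2, ha3⟩ := Nat.find_spec hexa
  have hamin : ∀ i, 1 ≤ i → i < Nat.find hexa → ¬ OnSeg E ω (X s, X (s + 1)) (w i) := by
    intro i h1 h2 h
    exact Nat.find_min hexa h2 ⟨h1, by omega, h⟩
  generalize Nat.find hexa = a at *
  have hwa : IsT E ω w a := isT_le hwT ha2
  have hwinj := (hT w a hwa).2
  -- the trail v
  have hya : w a ≠ X (s + 1) := by
    by_cases h1 : r = 1
    · intro h
      rw [h1] at hw0
      rw [← hw0] at h
      have := hwinj a 0 le_rfl (by omega) h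
      omega
    · intro h
      refine hmin (r - 1) (by omega) (by omega) (s + 1) (X (s + 1)) ⟨hon1 _, ?_, ?_⟩
      · have e : s + 1 + (r - 1) = s + r := by omega
        rw [e, ← h]
        exact hwon a ha2
      · intro _
        exact hinj _ _ (by omega) (by omega)
  obtain ⟨z, b, hb, hzT, hz0, hzb, hzk⟩ :=
    B2 (X s, X (s + 1)) (w a) (hal _) ha3 (X (s + 1)) (Or.inr rfl) hya
  have hzon : ∀ i, i ≤ b → OnSeg E ω (X s, X (s + 1)) (z i) := by
    intro i hi
    refine B3 (z 0, z 1) _ _ (hzT.1 0 (by omega)) (hal _) hzk ?_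
    exact ⟨z, b, 0, i, hzT, by omega, hi, rfl, Or.inl rfl⟩
  have hzinj := (hT z b hzT).2
  have hkey : ∀ t, t ≤ r → skey E ω T (cfe r b (fun t => X (s + 1 + t)) w (fun j => z (b - j)) t) =
      skey E ω T (X (s + t), X (s + t + 1)) := by
    intro t ht
    unfold cfe
    by_cases h0 : t = 0
    · subst h0
      simp only [if_true, Nat.sub_self]
      have e : b - (b - 1) = 1 := by omega
      rw [e, ← A3 _ _ (hzT.1 0 (by omega))]
      exact hzk
    · rw [if_neg h0]
      by_cases h1 : t = r
      · rw [if_pos h1, h1]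
        exact hwk
      · rw [if_neg h1]
        have e1 : s + 1 + (t - 1) = s + t := by omega
        have e2 : s + 1 + t = s + t + 1 := by omega
        simp only [e1, e2]
  refine ⟨r, a, b, fun t => X (s + 1 + t), w, fun j => z (b - j), ?_⟩
  refine
    { hr := hr1
      hrl := by omega
      ha := ha1
      hb := hb
      h3 := ?_
      hp := ?_
      hw := hwa
      hv := isT_rev hzT
      hw0 := ?_
      hv0 := ?_
      hvb := ?_
      hpp := ?_
      hpw := ?_
      hpv := ?_
      hwv := ?_
      hsk := ?_ }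
  · by_contra hlt
    have hr : r = 1 := by omega
    have haa : a = 1 := by omega
    have hbb : b = 1 := by omega
    subst hr haa hbb
    apply hcons s
    rw [← hzk, ← hwk, hz0, hzb, hw0]
  · intro t ht
    exact hX _
  · rw [hw0]
    congr 1
    omega
  · simp only [Nat.sub_zero]
    exact hzb
  · simp only [Nat.sub_self]
    exact hz0
  · intro i j hi hj hij
    by_contra hne
    rcases Nat.lt_or_gt_of_ne hne with hlt | hlt
    · exact hinj (s + 1 + i) (s + 1 + j) (by omega) (by omega) hij
    · exact hinj (s + 1 + j) (s + 1 + i) (by omega) (by omega) hij.symm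
  · intro t i ht h1 h2 h
    by_cases htr : t = r - 1
    · have e : s + 1 + t = s + r := by omega
      simp only [e] at h
      rw [← hw0] at h
      have := hwinj 0 i (by omega) h2 h
      omega
    · refine hmin (r - 1 - t) (by omega) (by omega) (s + 1 + t) (X (s + 1 + t)) ⟨hon1 _, ?_, ?_⟩
      · have e : s + 1 + t + (r - 1 - t) = s + r := by omega
        rw [e]
        have h' : X (s + 1 + t) = w i := h
        rw [h']
        exact hwon i (by omega)
      · intro _
        exact hinj _ _ (by omega) (by omega)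
  · intro t i ht h1 h2 h
    by_cases ht0 : t = 0
    · subst ht0
      have h' : X (s + 1) = z (b - i) := h
      rw [← hz0] at h'
      have := hzinj 0 (b - i) (by omega) (by omega) h'
      omega
    · refine hmin t (by omega) (by omega) s (X (s + t + 1)) ⟨?_, hon2 _, ?_⟩
      · have e : s + t + 1 = s + 1 + t := by omega
        rw [e]
        have h' : X (s + 1 + t) = z (b - i) := h
        rw [h']
        exact hzon _ (by omega)
      · intro _
        exact (hinj _ _ (by omega) (by omega)).symm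
  · intro i j h1 h2 h3 h4 h
    have h' : w i = z (b - j) := h
    by_cases hia : i = a
    · subst hia
      rw [← hzb] at h'
      have := hzinj b (b - j) le_rfl (by omega) h'
      omega
    · refine hamin i h1 (by omega) ?_
      rw [h']
      exact hzon _ (by omega)
  · intro i j hi hj hij
    rw [hkey i hi, hkey j hj] at hij
    by_contra hne
    rcases Nat.lt_or_gt_of_ne hne with hlt | hlt
    · exact hkeys i j hlt hj hij
    · exact hkeys j i hlt hi hij.symm

end DedA

/-- DEDA -/
theorem deda (hA : SegaStmt) (hB : SegbStmt) : DedAStmt := by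
  intro V L T ℓ E ω hT c x m hx hml
  obtain ⟨hm, hadj, hxm, hinj⟩ := hx
  refine DedA.core hA hB ℓ hT c (fun t => x (t % m)) m hm ?_ ?_ ?_ hml
  · intro t
    have hlt : t % m < m := Nat.mod_lt _ (by omega)
    have h := hadj _ hlt
    have e : x (t % m + 1) = x ((t + 1) % m) := by
      by_cases h1 : t % m + 1 = m
      · rw [h1, hxm]
        congr 1
        rw [Nat.add_mod, Nat.mod_eq_of_lt (show 1 < m by omega), h1, Nat.mod_self]
      · congr 1
        rw [Nat.add_mod, Nat.mod_eq_of_lt (show 1 < m by omega),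
          Nat.mod_eq_of_lt (show t % m + 1 < m by omega)]
    rw [← e]
    exact h
  · intro s t hst htm h
    have h' : x (s % m) = x (t % m) := h
    have := hinj _ _ (Nat.mod_lt _ (by omega)) (Nat.mod_lt _ (by omega)) h'
    have hd : m ∣ t - s := (Nat.modEq_iff_dvd' hst.le).1 this
    have := Nat.le_of_dvd (by omega) hd
    omega
  · intro t
    simp

end Pool.Agent.LAG
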